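import Mathlib
import Pool.Agent.H75.Perc.RswD
import Pool.Agent.H75.TwoArm.Defs

set_option autoImplicit false
open Finset

/-! Near-critical percolation: the inhomogeneous finite product measure. -/

namespace Pool.Agent.H69.NC

open Pool.Agent.H75.Perc Pool.Agent.H75.TwoArm

open Classical in
/-- Probability of the event `A` when the elements of `E` are present independently of each other,
the element `e` with probability `q e`. -/
noncomputable def PQ {α : Type*} [DecidableEq α] (q : α → ℝ) (E : Finset α)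
    (A : Finset α → Prop) : ℝ :=
  ∑ ω ∈ E.powerset.filter A, (∏ e ∈ ω, q e) * ∏ e ∈ E \ ω, (1 - q e)

/-- weights are probabilities -/
def Wt {α : Type*} (q : α → ℝ) : Prop := ∀ e, 0 ≤ q e ∧ q e ≤ 1

/-- `e` is pivotal for `A` -/
def Piv {α : Type*} [DecidableEq α] (A : Finset α → Prop) (e : α) (ω : Finset α) : Prop :=
  ¬ (A (insert e ω) ↔ A (ω.erase e))

/-- the block `Q` is pivotal for the increasing event `A` -/
def PivB {α : Type*} [DecidableEq α] (A : Finset α → Prop) (Q : Finset α) (ω : Finset α) : Prop :=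
  A (ω ∪ Q) ∧ ¬ A (ω \ Q)

/-- homogeneous weight -/
def hom {α : Type*} (p : ℝ) : α → ℝ := fun _ => p

/-- weights of the dual edges (in labels shifted by `(1,1)`) -/
def dq (q : ℤ × ℤ → ℝ) : ℤ × ℤ → ℝ := fun e => 1 - q (e.1 - 1, e.2 - 1)

/-- horizontal crossing probability of a `w × h` rectangle at the parameter `p` -/
noncomputable def fp (p : ℝ) (w h : ℤ) : ℝ := PQ (hom p) (Bx 0 w 0 h) (HC 0 w 0 h)

/-- Lower bound `c` for the open crossings of all rectangles with short side at most `N` and long side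
at most four times the short side. -/
def Rsw1 (q : ℤ × ℤ → ℝ) (c : ℝ) (N : ℤ) : Prop :=
  ∀ a b x y : ℤ, a ≤ b → 1 ≤ y - x → y - x ≤ N → b - a ≤ 4 * (y - x) →
    c ≤ PQ q (Bx a b x y) (HC a b x y) ∧ c ≤ PQ q (Bx x y a b) (VC x y a b)

/-- crossings of both colours -/
def Rsw (q : ℤ × ℤ → ℝ) (c : ℝ) (N : ℤ) : Prop :=
  Wt q ∧ 0 < c ∧ c ≤ 1 ∧ Rsw1 q c N ∧ Rsw1 (dq q) c N

end Pool.Agent.H69.NC
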