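import Mathlib
import Pool.Agent.H69.NC.Defs
import Pool.Agent.H99.NC.DualP
import Pool.Agent.H75.TwoArm.Decay

set_option autoImplicit false
open Finset

/-! Rectangle duality. -/

namespace Pool.Agent.H69.NC

open Pool.Agent.H75.Perc Pool.Agent.H75.TwoArm

/-- edges of the rectangle which are not on its left and right sides -/
noncomputable def Bi (a b x y : ℤ) : Finset (ℤ × ℤ) :=
  (Bx a b x y).filter (fun e => 2 * a < e.1 ∧ e.1 < 2 * b)

namespace RectDualAux

lemma VC_shift (a b c d s t : ℤ) (ω : Finset (ℤ × ℤ)) :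
    VC (a + s) (b + s) (c + t) (d + t) (ω.map (syT (s, t)).G) ↔ VC a b c d ω := by
  have hE : ∀ e, e ∈ Bx (a + s) (b + s) (c + t) (d + t) ↔ (syT (s, t)).G' e ∈ Bx a b c d := by
    intro e
    rw [mem_Bx, mem_Bx]
    simp only [syT]
    omega
  unfold VC
  rw [(syT (s, t)).map_inter ω hE]
  constructor
  · rintro ⟨p, q, h1, h2, h3, h4⟩
    refine ⟨p - (s, t), q - (s, t), ?_, ?_, ?_, ?_⟩
    · unfold inB at h1 ⊢
      simp only [Prod.fst_sub, Prod.snd_sub]; omega
    · simp only [Prod.snd_sub]; omega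
    · simp only [Prod.snd_sub]; omega
    · rw [← (syT (s, t)).co_iff]
      simpa [syT] using h4
  · rintro ⟨p, q, h1, h2, h3, h4⟩
    refine ⟨p + (s, t), q + (s, t), ?_, ?_, ?_, ?_⟩
    · unfold inB at h1 ⊢
      simp only [Prod.fst_add, Prod.snd_add]; omega
    · simp only [Prod.snd_add]; omega
    · simp only [Prod.snd_add]; omega
    · rw [← (syT (s, t)).co_iff] at h4
      exact h4

lemma PQ_eq_PrP {α : Type*} [DecidableEq α] (q : α → ℝ) (E : Finset α) (A : Finset α → Prop) :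
    PQ q E A = Pool.Agent.H99.NC.PrP q E A := by
  classical
  unfold PQ Pool.Agent.H99.NC.PrP Pool.Agent.H99.NC.Ex
  rw [Finset.sum_filter]
  apply Finset.sum_congr rfl
  intro ω _
  unfold Pool.Agent.H99.NC.ind Pool.Agent.H99.NC.wt
  by_cases h : A ω <;> simp [h]

lemma fp_eq (p : ℝ) (w h : ℤ) : fp p w h = Pool.Agent.H99.NC.fcP p w h := by
  unfold fp
  rw [PQ_eq_PrP]
  rfl

end RectDualAux

/-- If there is no open left-right crossing of `[a,b] × [x,y]` then there is a dual bottom-top crossing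
(faces with indices `a+1 ≤ i ≤ b`, `x ≤ j ≤ y+1`; the face `(i,j)` is the unit square with upper right
corner `(i,j)`). -/
theorem dual_crossing {a b x y : ℤ} (hab : a < b) (hxy : x ≤ y) {ω : Finset (ℤ × ℤ)}
    (h : ¬ HC a b x y ω) : VC (a + 1) b x (y + 1) (du (Bi a b x y) ω) := by
  obtain ⟨w, rfl⟩ : ∃ w : ℕ, b = a + (w + 1) := ⟨(b - a - 1).toNat, by omega⟩
  obtain ⟨k, rfl⟩ : ∃ k : ℕ, y = x + k := ⟨(y - x).toNat, by omega⟩
  have h1 : ¬ HC 0 (w + 1) 0 k (ω.map (syT (-a, -x)).G) := by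
    intro h2
    apply h
    have h3 := Pool.Agent.H99.NC.HC_shift a (a + (w + 1)) x (x + k) (-a) (-x) ω
    rw [show a + -a = 0 by ring, show x + -x = 0 by ring,
      show a + ((w : ℤ) + 1) + -a = w + 1 by ring, show x + (k : ℤ) + -x = k by ring] at h3
    exact h3.1 h2
  have h3 := (Pool.Agent.H99.NC.dual_iff w k _).1 h1
  have h4 := (Pool.Agent.H99.NC.VC_HC 0 w 0 (k + 1) _).2 h3
  have h5 := (RectDualAux.VC_shift 0 w 0 (k + 1) (a + 1) x _).2 h4
  rw [show 0 + (a + 1) = a + 1 by ring, show (w : ℤ) + (a + 1) = a + (w + 1) by ring,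
    show 0 + x = x by ring, show (k : ℤ) + 1 + x = x + k + 1 by ring] at h5
  refine VC_inc _ _ _ _ _ _ ?_ h5
  intro e he
  rw [Sy.mem_map, Sy.mem_map, Pool.Agent.H99.NC.mem_du2, Sy.mem_map,
    Pool.Agent.H99.NC.mem_M2] at he
  obtain ⟨he1, he2⟩ := he
  simp only [syT, syD, dl] at he1 he2
  unfold du
  rw [mem_map]
  refine ⟨(e.1 - 1, e.2 - 1), ?_, ?_⟩
  · rw [mem_sdiff]
    constructor
    · unfold Bi
      rw [mem_filter, mem_Bx]
      simp only
      omega
    · intro h6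
      apply he2
      convert h6 using 1
      refine Prod.ext ?_ ?_ <;> simp only <;> ring
  · unfold sh1
    refine Prod.ext ?_ ?_ <;> simp

theorem no_cross' {E ω : Finset (ℤ × ℤ)} {a b x y : ℤ}
    (h1 : HC a b x y ω) (h2 : VC (a + 1) b x (y + 1) (du E ω)) : False := no_cross h1 h2

/-- exact duality of the crossing probabilities -/
theorem fp_dual {p : ℝ} (_hp : 0 ≤ p ∧ p ≤ 1) {w h : ℤ} (hw : 1 ≤ w) (hh : 0 ≤ h) :
    fp p w h + fp (1 - p) (h + 1) (w - 1) = 1 := by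
  obtain ⟨w', rfl⟩ : ∃ w' : ℕ, w = w' + 1 := ⟨(w - 1).toNat, by omega⟩
  obtain ⟨h', rfl⟩ : ∃ h' : ℕ, h = h' := ⟨h.toNat, by omega⟩
  rw [RectDualAux.fp_eq, RectDualAux.fp_eq, show (w' : ℤ) + 1 - 1 = w' by ring]
  exact Pool.Agent.H99.NC.fcP_dual p w' h'

end Pool.Agent.H69.NC
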