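import Mathlib
import Pool.Agent.H99.NC.Prob
import Pool.Agent.H75.TwoArm.Decay

set_option autoImplicit false
open Finset

/-! Consequences of `Rsw`: crossings of long rectangles, decay of the arms of both colours. -/

namespace Pool.Agent.H69.NC

open Pool.Agent.H75.Perc Pool.Agent.H75.TwoArm

namespace CAux

/-! ### symmetries -/

lemma HC_shift (a b c d s t : ℤ) (ω : Finset (ℤ × ℤ)) :
    HC (a + s) (b + s) (c + t) (d + t) (ω.map (syT (s, t)).G) ↔ HC a b c d ω := by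
  have hE : ∀ e, e ∈ Bx (a + s) (b + s) (c + t) (d + t) ↔ (syT (s, t)).G' e ∈ Bx a b c d := by
    intro e
    rw [mem_Bx, mem_Bx]
    simp only [syT]
    omega
  unfold HC
  rw [(syT (s, t)).map_inter ω hE]
  constructor
  · rintro ⟨p, q, h1, h2, h3, h4⟩
    refine ⟨p - (s, t), q - (s, t), ?_, ?_, ?_, ?_⟩
    · unfold inB at h1 ⊢
      simp only [Prod.fst_sub, Prod.snd_sub]; omega
    · simp only [Prod.fst_sub]; omega
    · simp only [Prod.fst_sub]; omega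
    · rw [← (syT (s, t)).co_iff]
      simpa [syT] using h4
  · rintro ⟨p, q, h1, h2, h3, h4⟩
    refine ⟨p + (s, t), q + (s, t), ?_, ?_, ?_, ?_⟩
    · unfold inB at h1 ⊢
      simp only [Prod.fst_add, Prod.snd_add]; omega
    · simp only [Prod.fst_add]; omega
    · simp only [Prod.fst_add]; omega
    · rw [← (syT (s, t)).co_iff] at h4
      exact h4

lemma VC_swap (a b c d : ℤ) (ω : Finset (ℤ × ℤ)) :
    VC c d a b (ω.map syD.G) ↔ HC a b c d ω := by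
  have hE : ∀ e, e ∈ Bx c d a b ↔ syD.G' e ∈ Bx a b c d := by
    intro e
    rw [mem_Bx, mem_Bx]
    simp only [syD]
    omega
  unfold VC HC
  rw [syD.map_inter ω hE]
  constructor
  · rintro ⟨p, q, h1, h2, h3, h4⟩
    refine ⟨(p.2, p.1), (q.2, q.1), ?_, h2, h3, ?_⟩
    · unfold inB at h1 ⊢; exact ⟨h1.2, h1.1⟩
    · rw [← syD.co_iff]; exact h4
  · rintro ⟨p, q, h1, h2, h3, h4⟩
    refine ⟨(p.2, p.1), (q.2, q.1), ?_, h2, h3, ?_⟩
    · unfold inB at h1 ⊢; exact ⟨h1.2, h1.1⟩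
    · rw [← syD.co_iff] at h4; exact h4

lemma HC_swap (a b c d : ℤ) (ω : Finset (ℤ × ℤ)) :
    HC c d a b (ω.map syD.G) ↔ VC a b c d ω := by
  have hE : ∀ e, e ∈ Bx c d a b ↔ syD.G' e ∈ Bx a b c d := by
    intro e
    rw [mem_Bx, mem_Bx]
    simp only [syD]
    omega
  unfold VC HC
  rw [syD.map_inter ω hE]
  constructor
  · rintro ⟨p, q, h1, h2, h3, h4⟩
    refine ⟨(p.2, p.1), (q.2, q.1), ?_, h2, h3, ?_⟩
    · unfold inB at h1 ⊢; exact ⟨h1.2, h1.1⟩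
    · rw [← syD.co_iff]; exact h4
  · rintro ⟨p, q, h1, h2, h3, h4⟩
    refine ⟨(p.2, p.1), (q.2, q.1), ?_, h2, h3, ?_⟩
    · unfold inB at h1 ⊢; exact ⟨h1.2, h1.1⟩
    · rw [← syD.co_iff] at h4; exact h4

lemma VC_shift (a b c d s t : ℤ) (ω : Finset (ℤ × ℤ)) :
    VC (a + s) (b + s) (c + t) (d + t) (ω.map (syT (s, t)).G) ↔ VC a b c d ω := by
  rw [← HC_swap (a + s) (b + s) (c + t) (d + t), ← HC_swap a b c d,
    ← HC_shift c d a b t s (ω.map syD.G)]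
  have : (ω.map (syT (s, t)).G).map syD.G = (ω.map syD.G).map (syT (t, s)).G := by
    rw [map_map, map_map]
    congr 1
  rw [this]

/-- Gluing two vertical crossings with a horizontal crossing of the overlap. -/
lemma glue_VC {a a2 b1 b c d : ℤ} (h1 : a ≤ a2) (h2 : a2 ≤ b1) (h3 : b1 ≤ b)
    {ω : Finset (ℤ × ℤ)} (hA : VC c d a b1 ω) (hB : VC c d a2 b ω) (hV : HC c d a2 b1 ω) :
    VC c d a b ω := by
  rw [← HC_swap] at hA hB ⊢
  rw [← VC_swap] at hV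
  exact glue_HC h1 h2 h3 hA hB hV

lemma harris3' {q : ℤ × ℤ → ℝ} (hq : Wt q) (E : Finset (ℤ × ℤ)) {A B C : Finset (ℤ × ℤ) → Prop}
    (hA : Inc A) (hB : Inc B) (hC : Inc C) {x y z : ℝ} (x0 : 0 ≤ x) (y0 : 0 ≤ y) (z0 : 0 ≤ z)
    (hx : x ≤ PQ q E A) (hy : y ≤ PQ q E B) (hz : z ≤ PQ q E C) :
    x * y * z ≤ PQ q E (fun ω => A ω ∧ B ω ∧ C ω) := by
  have h1 := PQ_harris hq E hB hC
  have hBC : Inc (fun ω => B ω ∧ C ω) := fun ω ω' h h' => ⟨hB ω ω' h h'.1, hC ω ω' h h'.2⟩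
  have h2 := PQ_harris hq E hA hBC
  have h3 : y * z ≤ PQ q E (fun ω => B ω ∧ C ω) :=
    (mul_le_mul hy hz z0 (y0.trans hy)).trans h1
  calc x * y * z = x * (y * z) := by ring
    _ ≤ PQ q E A * PQ q E (fun ω => B ω ∧ C ω) :=
        mul_le_mul hx h3 (mul_nonneg y0 z0) (x0.trans hx)
    _ ≤ _ := h2

lemma ratio_aux {q : ℤ × ℤ → ℝ} (hq : Wt q) {c : ℝ} (hc : 0 < c) (hc1 : c ≤ 1) {N : ℤ}
    (h : Rsw1 q c N) {x y : ℤ} (h1 : 1 ≤ y - x) (h2 : y - x ≤ N) (k : ℕ) :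
    ∀ a b : ℤ, a ≤ b → b - a ≤ k * (y - x) →
    c ^ (2 * k + 1) ≤ PQ q (Bx a b x y) (HC a b x y) ∧
      c ^ (2 * k + 1) ≤ PQ q (Bx x y a b) (VC x y a b) := by
  have hle : ∀ n : ℕ, c ^ (2 * n + 1) ≤ c := by
    intro n
    calc c ^ (2 * n + 1) = c ^ (2 * n) * c := pow_succ _ _
      _ ≤ 1 * c := mul_le_mul_of_nonneg_right (pow_le_one₀ hc.le hc1) hc.le
      _ = c := one_mul c
  induction k with
  | zero =>
    intro a b hab hk
    push_cast at hk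
    obtain ⟨e1, e2⟩ := h a b x y hab h1 h2 (by linarith)
    exact ⟨(hle 0).trans e1, (hle 0).trans e2⟩
  | succ k ih =>
    intro a b hab hk
    rcases le_or_gt (b - a) (4 * (y - x)) with h4 | h4
    · obtain ⟨e1, e2⟩ := h a b x y hab h1 h2 h4
      exact ⟨(hle _).trans e1, (hle _).trans e2⟩
    · push_cast at hk
      set w := y - x with hw
      have ha2 : a ≤ b - 2 * w := by omega
      have hb1 : a ≤ b - w := by omega
      obtain ⟨i1, i2⟩ := ih a (b - w) hb1 (by linarith)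
      obtain ⟨j1, j2⟩ := h (b - 2 * w) b x y (by omega) h1 h2 (by omega)
      obtain ⟨-, k2⟩ := h x y (b - 2 * w) (b - w) (by omega) (by omega) (by omega) (by omega)
      obtain ⟨k1, -⟩ := h x y (b - 2 * w) (b - w) (by omega) (by omega) (by omega) (by omega)
      have hp : 0 ≤ c ^ (2 * k + 1) := by positivity
      have e : c ^ (2 * (k + 1) + 1) = c ^ (2 * k + 1) * c * c := by ring
      rw [e]
      constructor
      · have s1 := i1.trans (PQ_inc hq (E := Bx a b x y)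
          (Bx_sub le_rfl (by omega) le_rfl le_rfl) (HC_inc _ _ _ _))
        have s2 := j1.trans (PQ_inc hq (E := Bx a b x y)
          (Bx_sub (by omega) le_rfl le_rfl le_rfl) (HC_inc _ _ _ _))
        have s3 := k2.trans (PQ_inc hq (E := Bx a b x y)
          (Bx_sub (by omega) (by omega) le_rfl le_rfl) (VC_inc _ _ _ _))
        refine (harris3' hq _ (HC_inc _ _ _ _) (HC_inc _ _ _ _) (VC_inc _ _ _ _) hp hc.le hc.le
          s1 s2 s3).trans ?_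
        apply PQ_mono hq
        rintro ω _ ⟨hA, hB, hV⟩
        exact glue_HC (by omega) (by omega) (by omega) hA hB hV
      · have s1 := i2.trans (PQ_inc hq (E := Bx x y a b)
          (Bx_sub le_rfl le_rfl le_rfl (by omega)) (VC_inc _ _ _ _))
        have s2 := j2.trans (PQ_inc hq (E := Bx x y a b)
          (Bx_sub le_rfl le_rfl (by omega) le_rfl) (VC_inc _ _ _ _))
        have s3 := k1.trans (PQ_inc hq (E := Bx x y a b)
          (Bx_sub le_rfl le_rfl (by omega) (by omega)) (HC_inc _ _ _ _))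
        refine (harris3' hq _ (VC_inc _ _ _ _) (VC_inc _ _ _ _) (HC_inc _ _ _ _) hp hc.le hc.le
          s1 s2 s3).trans ?_
        apply PQ_mono hq
        rintro ω _ ⟨hA, hB, hV⟩
        exact glue_VC (by omega) (by omega) (by omega) hA hB hV

end CAux

open CAux

theorem rsw_ratio (k : ℕ) (c : ℝ) (hc : 0 < c) : ∃ c' : ℝ, 0 < c' ∧ ∀ (q : ℤ × ℤ → ℝ) (N : ℤ),
    Wt q → Rsw1 q c N → ∀ a b x y : ℤ, a ≤ b → 1 ≤ y - x → y - x ≤ N → b - a ≤ k * (y - x) →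
    c' ≤ PQ q (Bx a b x y) (HC a b x y) ∧ c' ≤ PQ q (Bx x y a b) (VC x y a b) := by
  have hm : 0 < min c 1 := lt_min hc one_pos
  refine ⟨(min c 1) ^ (2 * k + 1), by positivity, ?_⟩
  intro q N hq h a b x y hab h1 h2 h3
  have h' : Rsw1 q (min c 1) N := fun a b x y e1 e2 e3 e4 =>
    ⟨(min_le_left _ _).trans (h a b x y e1 e2 e3 e4).1,
      (min_le_left _ _).trans (h a b x y e1 e2 e3 e4).2⟩
  exact ratio_aux hq hm (min_le_right _ _) h' h1 h2 k a b hab h3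

namespace CAux

open Pool.Agent.H75.TwoArm.DecayAux

lemma wt_dq {q : ℤ × ℤ → ℝ} (hq : Wt q) : Wt (dq q) := by
  intro e
  have := hq (e.1 - 1, e.2 - 1)
  unfold dq
  constructor <;> linarith [this.1, this.2]

lemma dq_dq (q : ℤ × ℤ → ℝ) (e : ℤ × ℤ) : dq (dq q) ((syT (1, 1)).G e) = q e := by
  unfold dq
  simp only [syT, Function.Embedding.coeFn_mk]
  rw [sub_sub_cancel]
  congr 1
  refine Prod.ext ?_ ?_ <;> simp only <;> ring

lemma rsw1_dq_dq {q : ℤ × ℤ → ℝ} {c : ℝ} {N : ℤ} (h : Rsw1 q c N) : Rsw1 (dq (dq q)) c N := by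
  intro a b x y e1 e2 e3 e4
  obtain ⟨r1, r2⟩ := h (a - 1) (b - 1) (x - 1) (y - 1) (by omega) (by omega) (by omega) (by omega)
  have m : ∀ a b x y : ℤ, (Bx (a - 1) (b - 1) (x - 1) (y - 1)).map (syT (1, 1)).G = Bx a b x y := by
    intro a b x y
    apply (syT (1, 1)).map_eq
    intro e
    rw [mem_Bx, mem_Bx]
    simp only [syT]
    omega
  constructor
  · refine r1.trans (le_of_eq ?_)
    rw [← m a b x y, PQ_map]
    rw [PQ_congr_q (q' := q) (fun e _ => dq_dq q e)]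
    apply PQ_congr
    intro ω _
    have := HC_shift (a - 1) (b - 1) (x - 1) (y - 1) 1 1 ω
    simp only [sub_add_cancel] at this
    exact this.symm
  · refine r2.trans (le_of_eq ?_)
    rw [← m x y a b, PQ_map]
    rw [PQ_congr_q (q' := q) (fun e _ => dq_dq q e)]
    apply PQ_congr
    intro ω _
    have := VC_shift (x - 1) (y - 1) (a - 1) (b - 1) 1 1 ω
    simp only [sub_add_cancel] at this
    exact this.symm

lemma rsw_dq {q : ℤ × ℤ → ℝ} {c : ℝ} {N : ℤ} (h : Rsw q c N) : Rsw (dq q) c N :=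
  ⟨wt_dq h.1, h.2.1, h.2.2.1, h.2.2.2.2, rsw1_dq_dq h.2.2.2.1⟩

lemma PQ_GG {q : ℤ × ℤ → ℝ} (hq : Wt q) {c : ℝ} (hc : 0 < c) {N : ℤ} (h : Rsw1 q c N)
    {x : ℤ × ℤ} {m : ℤ} (hm : 1 ≤ m) (hN : 4 * m ≤ N) :
    c ^ 4 ≤ PQ q (SS x (4 * m) \ SS x m) (GG x m) := by
  obtain ⟨s1, s2, s3, s4⟩ := sub_ring x hm
  obtain ⟨-, p1⟩ := h (x.2 - 4 * m + 1) (x.2 + 4 * m) (x.1 + m + 1) (x.1 + 4 * m) (by omega)
    (by omega) (by omega) (by omega)
  obtain ⟨-, p2⟩ := h (x.2 - 4 * m + 1) (x.2 + 4 * m) (x.1 - 4 * m + 1) (x.1 - m) (by omega)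
    (by omega) (by omega) (by omega)
  obtain ⟨p3, -⟩ := h (x.1 - 4 * m + 1) (x.1 + 4 * m) (x.2 + m + 1) (x.2 + 4 * m) (by omega)
    (by omega) (by omega) (by omega)
  obtain ⟨p4, -⟩ := h (x.1 - 4 * m + 1) (x.1 + 4 * m) (x.2 - 4 * m + 1) (x.2 - m) (by omega)
    (by omega) (by omega) (by omega)
  have q1 := p1.trans (PQ_inc hq s1 (VC_inc _ _ _ _))
  have q2 := p2.trans (PQ_inc hq s2 (VC_inc _ _ _ _))
  have q3 := p3.trans (PQ_inc hq s3 (HC_inc _ _ _ _))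
  have q4 := p4.trans (PQ_inc hq s4 (HC_inc _ _ _ _))
  have h34 := (mul_le_mul q3 q4 hc.le (hc.le.trans q3)).trans
    (PQ_harris hq (SS x (4 * m) \ SS x m) (HC_inc _ _ _ _) (HC_inc _ _ _ _))
  have h1234 := harris3' hq (SS x (4 * m) \ SS x m) (VC_inc _ _ _ _) (VC_inc _ _ _ _)
    (C := fun η => HC (x.1 - 4 * m + 1) (x.1 + 4 * m) (x.2 + m + 1) (x.2 + 4 * m) η ∧
      HC (x.1 - 4 * m + 1) (x.1 + 4 * m) (x.2 - 4 * m + 1) (x.2 - m) η)
    (fun ω ω' h h' => ⟨HC_inc _ _ _ _ _ _ h h'.1, HC_inc _ _ _ _ _ _ h h'.2⟩)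
    hc.le hc.le (mul_pos hc hc).le q1 q2 h34
  calc c ^ 4 = c * c * (c * c) := by ring
    _ ≤ _ := h1234

lemma PQ_FF {q : ℤ × ℤ → ℝ} (hq : Wt q) {c δ : ℝ} (hc : 0 < c) (hδ : δ ≤ c ^ 4) (_hδ1 : δ ≤ 1) {N : ℤ}
    (h : Rsw1 q c N) (x : ℤ × ℤ) {ρ : ℤ} (hρ : 1 ≤ ρ) (k : ℕ) (hN : 4 ^ k * ρ ≤ N) :
    PQ q (SS x (4 ^ k * ρ)) (FF x ρ k) ≤ (1 - δ) ^ k := by
  induction k with
  | zero => simpa using PQ_le_one hq _ _
  | succ k ih =>
    have e4 : (4 : ℤ) ^ (k + 1) * ρ = 4 * (4 ^ k * ρ) := by ring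
    have hm := one_le_scale hρ k
    rw [e4] at hN ⊢
    have ih := ih (by linarith)
    set m := (4 : ℤ) ^ k * ρ with hmdef
    have hsub : SS x m ⊆ SS x (4 * m) := SS_sub x (by omega)
    have h1 : PQ q (SS x (4 * m)) (FF x ρ (k + 1)) =
        PQ q (SS x (4 * m)) (fun η => FF x ρ k (η ∩ SS x m) ∧
          ¬ GG x m (η ∩ (SS x (4 * m) \ SS x m))) := by
      apply PQ_congr
      intro η _
      rw [FF_inter hρ (subset_refl _), GG_inter hm (subset_refl _)]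
      unfold FF
      constructor
      · intro h
        exact ⟨fun i hi => h i (by omega), h k (by omega)⟩
      · rintro ⟨h, h'⟩ i hi
        rcases Nat.lt_succ_iff_lt_or_eq.1 hi with h2 | h2
        · exact h i h2
        · rw [h2]; exact h'
    rw [h1, PQ_indep hsub sdiff_subset disjoint_sdiff (FF x ρ k) (fun η => ¬ GG x m η), PQ_not,
      pow_succ]
    have h2 := PQ_GG (x := x) hq hc h hm hN
    apply mul_le_mul ih (by linarith)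
    · have := PQ_le_one hq (SS x (4 * m) \ SS x m) (GG x m)
      linarith
    · exact (PQ_nonneg hq _ _).trans ih

theorem open_decay {c δ : ℝ} (hδ : δ ≤ c ^ 4) (_hδ1 : δ ≤ 1) {q : ℤ × ℤ → ℝ} {N : ℤ}
    (h : Rsw q c N) (E : Finset (ℤ × ℤ)) (x : ℤ × ℤ) (ρ : ℤ) (hρ : 1 ≤ ρ) (k : ℕ)
    (hN : 4 ^ k * ρ ≤ N) :
    PQ q E (fun ω => ∃ u v : ℤ × ℤ, |u.1 - x.1| ≤ ρ ∧ |u.2 - x.2| ≤ ρ ∧
      (4 ^ k * ρ ≤ |v.1 - x.1| ∨ 4 ^ k * ρ ≤ |v.2 - x.2|) ∧ Co ω u v) ≤ (1 - δ) ^ k := by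
  obtain ⟨hq, hc, -, -, h5⟩ := h
  set M := (4 : ℤ) ^ k * ρ with hM
  set E' := E ∪ Bx (x.1 - M) (x.1 + M) (x.2 - M) (x.2 + M) with hE'
  have hinc : Inc (fun ω : Finset (ℤ × ℤ) => ∃ u v : ℤ × ℤ, |u.1 - x.1| ≤ ρ ∧ |u.2 - x.2| ≤ ρ ∧
      (M ≤ |v.1 - x.1| ∨ M ≤ |v.2 - x.2|) ∧ Co ω u v) := by
    rintro ω ω' h ⟨u, v, h1, h2, h3, h4⟩
    exact ⟨u, v, h1, h2, h3, h4.mono h⟩
  refine (PQ_inc hq (show E ⊆ E' from subset_union_left) hinc).trans ?_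
  have h1 : PQ q E' (fun ω => ∃ u v : ℤ × ℤ, |u.1 - x.1| ≤ ρ ∧ |u.2 - x.2| ≤ ρ ∧
      (M ≤ |v.1 - x.1| ∨ M ≤ |v.2 - x.2|) ∧ Co ω u v) ≤
      PQ q E' (fun ω => FF x ρ k (du E' ω)) := by
    apply PQ_mono hq
    rintro ω _ ⟨u, v, hu1, hu2, hv, hco⟩ i hi
    have hs0 := scale_mono hρ (Nat.zero_le i)
    have hs1 := scale_mono hρ (show i + 1 ≤ k by omega)
    rw [pow_succ] at hs1
    rw [pow_zero, one_mul] at hs0
    apply not_GG (one_le_scale hρ i) (hu1.trans hs0) (hu2.trans hs0) _ hco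
    rcases hv with hv | hv
    · left; linarith
    · right; linarith
  refine h1.trans ?_
  rw [PQ_du q E' (FF x ρ k)]
  have hsub : SS x M ⊆ E'.map sh1 := by
    intro l hl
    rw [mem_map]
    refine ⟨(l.1 - 1, l.2 - 1), ?_, ?_⟩
    · rw [hE', mem_union]
      right
      unfold SS at hl
      rw [mem_Bx] at hl ⊢
      simp only
      omega
    · refine Prod.ext ?_ ?_ <;> simp [sh1]
  have h2 : PQ (dq q) (E'.map sh1) (FF x ρ k) = PQ (dq q) (SS x M) (FF x ρ k) := by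
    rw [← PQ_restrict hsub]
    exact PQ_congr fun η _ => (FF_inter hρ (subset_refl _) η).symm
  rw [h2]
  exact PQ_FF (wt_dq hq) hc hδ _hδ1 h5 x hρ k hN

end CAux

/-- arms of both colours decay -/
theorem arm_decay (c : ℝ) (hc : 0 < c) : ∃ δ : ℝ, 0 < δ ∧ δ < 1 ∧ ∀ (q : ℤ × ℤ → ℝ) (N : ℤ),
    Rsw q c N → ∀ (E : Finset (ℤ × ℤ)), (∀ e ∈ E, (e.1 + e.2) % 2 = 1) →
    ∀ (x : ℤ × ℤ) (ρ : ℤ), 1 ≤ ρ → ∀ k : ℕ, 4 ^ k * ρ ≤ N →
    PQ q E (fun ω => ∃ u v : ℤ × ℤ, |u.1 - x.1| ≤ ρ ∧ |u.2 - x.2| ≤ ρ ∧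
      (4 ^ k * ρ ≤ |v.1 - x.1| ∨ 4 ^ k * ρ ≤ |v.2 - x.2|) ∧ Co ω u v) ≤ (1 - δ) ^ k ∧
    PQ q E (fun ω => ∃ u v : ℤ × ℤ, |u.1 - x.1| ≤ ρ ∧ |u.2 - x.2| ≤ ρ ∧
      (4 ^ k * ρ ≤ |v.1 - x.1| ∨ 4 ^ k * ρ ≤ |v.2 - x.2|) ∧ Co (du E ω) u v) ≤ (1 - δ) ^ k := by
  have hd : min (c ^ 4) (1 / 2) ≤ c ^ 4 := min_le_left _ _
  have hd1 : min (c ^ 4) (1 / 2) ≤ 1 := (min_le_right _ _).trans (by norm_num)
  refine ⟨min (c ^ 4) (1 / 2), lt_min (by positivity) (by norm_num),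
    (min_le_right _ _).trans_lt (by norm_num), ?_⟩
  intro q N h E _ x ρ hρ k hN
  refine ⟨open_decay hd hd1 h E x ρ hρ k hN, ?_⟩
  have := open_decay hd hd1 (rsw_dq h) (E.map sh1) x ρ hρ k hN
  rw [← PQ_du q E] at this
  exact this

end Pool.Agent.H69.NC
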