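import Mathlib
import Pool.Agent.H69.NC.Defs

set_option autoImplicit false
open Finset

/-! # The OSSS inequality for block decision trees, and exploration trees (NC-O)

Only the definitions `PQ`, `Wt`, `PivB` (and `Inc`) are used. -/

namespace Pool.Agent.H69.NC

open Pool.Agent.H75.Perc Pool.Agent.H75.TwoArm

/-! ### Expectations for the product law -/

namespace Osss84

variable {α : Type*} [DecidableEq α]

/-- the weight of a configuration -/
noncomputable def W (q : α → ℝ) (E ω : Finset α) : ℝ := (∏ e ∈ ω, q e) * ∏ e ∈ E \ ω, (1 - q e)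

/-- expectation -/
noncomputable def ex (q : α → ℝ) (E : Finset α) (f : Finset α → ℝ) : ℝ :=
  ∑ ω ∈ E.powerset, W q E ω * f ω

lemma W_eq_prod (q : α → ℝ) {E ω : Finset α} (h : ω ⊆ E) :
    W q E ω = ∏ e ∈ E, if e ∈ ω then q e else 1 - q e := by
  unfold W
  rw [Finset.prod_ite]
  congr 1
  · apply Finset.prod_congr _ (fun _ _ => rfl)
    ext e
    rw [mem_filter]
    exact ⟨fun he => ⟨h he, he⟩, fun he => he.2⟩
  · apply Finset.prod_congr _ (fun _ _ => rfl)
    ext e
    rw [mem_filter, mem_sdiff]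

lemma W_nonneg {q : α → ℝ} (hq : Wt q) (E ω : Finset α) : 0 ≤ W q E ω := by
  unfold W
  apply mul_nonneg
  · exact Finset.prod_nonneg fun e _ => (hq e).1
  · exact Finset.prod_nonneg fun e _ => sub_nonneg.mpr (hq e).2

lemma W_union (q : α → ℝ) {E B x y : Finset α} (hB : B ⊆ E) (hx : x ⊆ B) (hy : y ⊆ E \ B) :
    W q E (x ∪ y) = W q B x * W q (E \ B) y := by
  have hd : Disjoint x y := by
    rw [Finset.disjoint_left]
    intro e h1 h2
    exact (mem_sdiff.mp (hy h2)).2 (hx h1)
  have h1 : E \ (x ∪ y) = (B \ x) ∪ ((E \ B) \ y) := by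
    ext e
    simp only [mem_sdiff, mem_union]
    constructor
    · rintro ⟨h1, h2⟩
      by_cases h3 : e ∈ B
      · exact Or.inl ⟨h3, fun h4 => h2 (Or.inl h4)⟩
      · exact Or.inr ⟨⟨h1, h3⟩, fun h4 => h2 (Or.inr h4)⟩
    · rintro (⟨h1, h2⟩ | ⟨⟨h1, h2⟩, h3⟩)
      · refine ⟨hB h1, ?_⟩
        rintro (h4 | h4)
        · exact h2 h4
        · exact (mem_sdiff.mp (hy h4)).2 h1
      · refine ⟨h1, ?_⟩
        rintro (h4 | h4)
        · exact h2 (hx h4)
        · exact h3 h4
  have hd' : Disjoint (B \ x) ((E \ B) \ y) := by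
    rw [Finset.disjoint_left]
    intro e h1 h2
    exact (mem_sdiff.mp (mem_sdiff.mp h2).1).2 (mem_sdiff.mp h1).1
  unfold W
  rw [h1, prod_union hd, prod_union hd']
  ring

lemma ex_congr {q : α → ℝ} {E : Finset α} {f g : Finset α → ℝ} (h : ∀ ω, ω ⊆ E → f ω = g ω) :
    ex q E f = ex q E g := by
  unfold ex
  exact sum_congr rfl fun ω hω => by rw [h ω (mem_powerset.mp hω)]

lemma ex_mono {q : α → ℝ} (hq : Wt q) {E : Finset α} {f g : Finset α → ℝ}
    (h : ∀ ω, ω ⊆ E → f ω ≤ g ω) : ex q E f ≤ ex q E g := by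
  unfold ex
  exact sum_le_sum fun ω hω => mul_le_mul_of_nonneg_left (h ω (mem_powerset.mp hω)) (W_nonneg hq _ _)

lemma ex_add (q : α → ℝ) (E : Finset α) (f g : Finset α → ℝ) :
    ex q E (fun ω => f ω + g ω) = ex q E f + ex q E g := by
  unfold ex
  rw [← sum_add_distrib]
  exact sum_congr rfl fun ω _ => by ring

lemma ex_sum (q : α → ℝ) (E : Finset α) {ι : Type*} (I : Finset ι) (f : ι → Finset α → ℝ) :
    ex q E (fun ω => ∑ i ∈ I, f i ω) = ∑ i ∈ I, ex q E (f i) := by
  unfold ex
  rw [sum_comm]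
  exact sum_congr rfl fun ω _ => by rw [mul_sum]

lemma ex_mul_right (q : α → ℝ) (E : Finset α) (f : Finset α → ℝ) (c : ℝ) :
    ex q E (fun ω => f ω * c) = ex q E f * c := by
  unfold ex
  rw [sum_mul]
  exact sum_congr rfl fun ω _ => by ring

lemma ex_mul_left (q : α → ℝ) (E : Finset α) (f : Finset α → ℝ) (c : ℝ) :
    ex q E (fun ω => c * f ω) = c * ex q E f := by
  unfold ex
  rw [mul_sum]
  exact sum_congr rfl fun ω _ => by ring

lemma ex_one (q : α → ℝ) (E : Finset α) : ex q E (fun _ => 1) = 1 := by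
  unfold ex W
  simp only [mul_one]
  rw [← Finset.prod_add]
  apply Finset.prod_eq_one
  intro e _
  ring

lemma ex_const (q : α → ℝ) (E : Finset α) (c : ℝ) : ex q E (fun _ => c) = c := by
  have := ex_mul_left q E (fun _ => 1) c
  rw [ex_one] at this
  simpa using this

lemma ex_zero (q : α → ℝ) (E : Finset α) : ex q E (fun _ => 0) = 0 := ex_const q E 0

lemma ex_nonneg {q : α → ℝ} (hq : Wt q) {E : Finset α} {f : Finset α → ℝ}
    (h : ∀ ω, ω ⊆ E → 0 ≤ f ω) : 0 ≤ ex q E f := by
  rw [← ex_zero q E]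
  exact ex_mono hq h

lemma PQ_eq_ex (q : α → ℝ) (E : Finset α) (A : Finset α → Prop) [inst : DecidablePred A] :
    PQ q E A = ex q E (fun ω => if A ω then 1 else 0) := by
  obtain rfl : inst = fun a => Classical.propDecidable (A a) := Subsingleton.elim _ _
  unfold PQ ex W
  rw [sum_filter]
  refine sum_congr rfl fun ω _ => ?_
  by_cases h : A ω
  · simp only [if_pos h, mul_one]
  · simp only [if_neg h, mul_zero]

lemma ex_split (q : α → ℝ) {E B : Finset α} (hB : B ⊆ E) (f : Finset α → ℝ) :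
    ex q E f = ex q B (fun x => ex q (E \ B) (fun y => f (x ∪ y))) := by
  unfold ex
  have h1 : ∀ x ∈ B.powerset, W q B x * ∑ y ∈ (E \ B).powerset, W q (E \ B) y * f (x ∪ y) =
      ∑ y ∈ (E \ B).powerset, W q E (x ∪ y) * f (x ∪ y) := by
    intro x hx
    rw [mul_sum]
    refine sum_congr rfl fun y hy => ?_
    rw [W_union q hB (mem_powerset.mp hx) (mem_powerset.mp hy)]
    ring
  rw [sum_congr rfl h1, ← sum_product']
  symm
  apply sum_nbij' (fun p => p.1 ∪ p.2) (fun ω => (ω ∩ B, ω \ B))
  · intro p hp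
    rw [mem_product, mem_powerset, mem_powerset] at hp
    rw [mem_powerset]
    exact union_subset (hp.1.trans hB) (hp.2.trans sdiff_subset)
  · intro ω hω
    rw [mem_powerset] at hω
    rw [mem_product, mem_powerset, mem_powerset]
    exact ⟨inter_subset_right, sdiff_subset_sdiff hω (subset_refl _)⟩
  · intro p hp
    rw [mem_product, mem_powerset, mem_powerset] at hp
    have h2 : ∀ e ∈ p.2, e ∉ B := fun e he => (mem_sdiff.mp (hp.2 he)).2
    refine Prod.ext ?_ ?_
    · ext e
      simp only [mem_inter, mem_union]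
      constructor
      · rintro ⟨h | h, h'⟩
        · exact h
        · exact absurd h' (h2 e h)
      · intro h
        exact ⟨Or.inl h, hp.1 h⟩
    · ext e
      simp only [mem_sdiff, mem_union]
      constructor
      · rintro ⟨h | h, h'⟩
        · exact absurd (hp.1 h) h'
        · exact h
      · intro h
        exact ⟨Or.inr h, h2 e h⟩
  · intro ω _
    show (ω ∩ B) ∪ (ω \ B) = ω
    ext e
    simp only [mem_inter, mem_sdiff, mem_union]
    tauto
  · intro p _
    rfl

/-- the law of the trace on the complement of `B` -/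
lemma ex_sdiff (q : α → ℝ) {E B : Finset α} (hB : B ⊆ E) (f : Finset α → ℝ)
    (hf : ∀ ω, f ω = f (ω \ B)) : ex q E f = ex q (E \ B) f := by
  rw [ex_split q hB]
  have : ∀ x ⊆ B, (ex q (E \ B) fun y => f (x ∪ y)) = ex q (E \ B) f := by
    intro x hx
    apply ex_congr
    intro y hy
    rw [hf (x ∪ y), hf y]
    congr 1
    ext e
    simp only [mem_sdiff, mem_union]
    constructor
    · rintro ⟨h | h, h'⟩
      · exact absurd (hx h) h'
      · exact ⟨h, h'⟩
    · rintro ⟨h, h'⟩
      exact ⟨Or.inr h, h'⟩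
  rw [ex_congr this, ex_const]

/-- conditioning on the trace on the block `B` -/
lemma ex_cond (q : α → ℝ) {E B : Finset α} (hB : B ⊆ E) (F : Finset α → Finset α → ℝ)
    (hF : ∀ x ω, F x ω = F x (ω \ B)) :
    ex q E (fun ω => F (ω ∩ B) ω) = ex q B (fun x => ex q E (F x)) := by
  rw [ex_split q hB]
  apply ex_congr
  intro x hx
  rw [ex_sdiff q hB (F x) (hF x)]
  apply ex_congr
  intro y hy
  have h1 : (x ∪ y) ∩ B = x := by
    ext e
    simp only [mem_inter, mem_union]
    constructor
    · rintro ⟨h | h, h'⟩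
      · exact h
      · exact absurd h' (mem_sdiff.mp (hy h)).2
    · intro h
      exact ⟨Or.inl h, hx h⟩
  have h2 : (x ∪ y) \ B = y \ B := by
    ext e
    simp only [mem_sdiff, mem_union]
    constructor
    · rintro ⟨h | h, h'⟩
      · exact absurd (hx h) h'
      · exact ⟨h, h'⟩
    · rintro ⟨h, h'⟩
      exact ⟨Or.inr h, h'⟩
  rw [h1, hF x (x ∪ y), h2, ← hF x y]

/-- the configuration which is `ω` on `U` and `ω'` elsewhere -/
def mx (U ω ω' : Finset α) : Finset α := (ω ∩ U) ∪ (ω' \ U)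

lemma mem_mx {U ω ω' : Finset α} {e : α} : e ∈ mx U ω ω' ↔ (e ∈ U ∧ e ∈ ω) ∨ (e ∉ U ∧ e ∈ ω') := by
  unfold mx
  rw [mem_union, mem_inter, mem_sdiff]
  tauto

lemma mx_subset {E U ω ω' : Finset α} (h : ω ⊆ E) (h' : ω' ⊆ E) : mx U ω ω' ⊆ E := by
  intro e he
  rw [mem_mx] at he
  rcases he with he | he
  · exact h he.2
  · exact h' he.2

lemma W_mx (q : α → ℝ) {E : Finset α} (U : Finset α) {ω ω' : Finset α} (h : ω ⊆ E) (h' : ω' ⊆ E) :
    W q E (mx U ω ω') * W q E (mx U ω' ω) = W q E ω * W q E ω' := by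
  rw [W_eq_prod q (mx_subset h h'), W_eq_prod q (mx_subset h' h), W_eq_prod q h, W_eq_prod q h',
    ← prod_mul_distrib, ← prod_mul_distrib]
  refine prod_congr rfl fun e _ => ?_
  by_cases h1 : e ∈ U
  · have h2 : e ∈ mx U ω ω' ↔ e ∈ ω := by rw [mem_mx]; tauto
    have h3 : e ∈ mx U ω' ω ↔ e ∈ ω' := by rw [mem_mx]; tauto
    simp only [h2, h3]
  · have h2 : e ∈ mx U ω ω' ↔ e ∈ ω' := by rw [mem_mx]; tauto
    have h3 : e ∈ mx U ω' ω ↔ e ∈ ω := by rw [mem_mx]; tauto
    simp only [h2, h3]
    ring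

/-- The mixture of two independent configurations has the product law. -/
lemma ex_mx (q : α → ℝ) (E : Finset α) (U : Finset α → Finset α)
    (hU : ∀ ω ω', ω ⊆ E → ω' ⊆ E → U (mx (U ω) ω ω') = U ω) (g : Finset α → ℝ) :
    ex q E (fun ω => ex q E (fun ω' => g (mx (U ω) ω ω'))) = ex q E g := by
  have h0 : ex q E g = ex q E (fun ω => ex q E (fun _ => g ω)) := by
    apply ex_congr
    intro ω _
    rw [ex_const]
  rw [h0]
  unfold ex
  have h1 : ∀ G : Finset α → Finset α → ℝ, ∑ ω ∈ E.powerset, W q E ω *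
      ∑ ω' ∈ E.powerset, W q E ω' * G ω ω' =
        ∑ p ∈ E.powerset ×ˢ E.powerset, W q E p.1 * W q E p.2 * G p.1 p.2 := by
    intro G
    rw [sum_product]
    refine sum_congr rfl fun ω _ => ?_
    rw [mul_sum]
    exact sum_congr rfl fun ω' _ => by ring
  rw [h1, h1 (fun ω _ => g ω)]
  have key : ∀ p ∈ E.powerset ×ˢ E.powerset,
      (mx (U p.1) p.1 p.2, mx (U p.1) p.2 p.1) ∈ E.powerset ×ˢ E.powerset := by
    intro p hp
    rw [mem_product, mem_powerset, mem_powerset] at hp ⊢
    exact ⟨mx_subset hp.1 hp.2, mx_subset hp.2 hp.1⟩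
  have inv : ∀ p ∈ E.powerset ×ˢ E.powerset,
      (mx (U (mx (U p.1) p.1 p.2)) (mx (U p.1) p.1 p.2) (mx (U p.1) p.2 p.1),
        mx (U (mx (U p.1) p.1 p.2)) (mx (U p.1) p.2 p.1) (mx (U p.1) p.1 p.2)) = p := by
    intro p hp
    rw [mem_product, mem_powerset, mem_powerset] at hp
    rw [hU p.1 p.2 hp.1 hp.2]
    refine Prod.ext ?_ ?_
    · ext e
      simp only [mem_mx]
      tauto
    · ext e
      simp only [mem_mx]
      tauto
  apply sum_nbij' (fun p => (mx (U p.1) p.1 p.2, mx (U p.1) p.2 p.1))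
    (fun p => (mx (U p.1) p.1 p.2, mx (U p.1) p.2 p.1)) key key inv inv
  intro p hp
  rw [mem_product, mem_powerset, mem_powerset] at hp
  show W q E p.1 * W q E p.2 * g (mx (U p.1) p.1 p.2) = W q E (mx (U p.1) p.1 p.2) *
    W q E (mx (U p.1) p.2 p.1) * g (mx (U p.1) p.1 p.2)
  rw [W_mx q (U p.1) hp.1 hp.2]

end Osss84

/-- Decision trees: at a node the block `b` is revealed and its content decides how to go on. -/
inductive DT (ι X : Type*) where
  | leaf : DT ι X
  | node : ι → (X → DT ι X) → DT ι X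

section osss
variable {α ι : Type*} [DecidableEq α] [DecidableEq ι]

/-- labels of a tree -/
def DT.Mem (b : ι) : DT ι (Finset α) → Prop
  | .leaf => False
  | .node b' ch => b = b' ∨ ∃ x, DT.Mem b (ch x)
/-- no block is revealed twice -/
def DT.Simple : DT ι (Finset α) → Prop
  | .leaf => True
  | .node b ch => ∀ x, ¬ DT.Mem b (ch x) ∧ DT.Simple (ch x)
/-- the revealed blocks -/
def DT.rev (blk : ι → Finset α) : DT ι (Finset α) → Finset α → Finset ι
  | .leaf, _ => ∅
  | .node b ch, ω => insert b (DT.rev blk (ch (ω ∩ blk b)) ω)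

namespace Osss84

lemma mem_of_rev (blk : ι → Finset α) (T : DT ι (Finset α)) {b : ι} {ω : Finset α}
    (h : b ∈ T.rev blk ω) : T.Mem b := by
  induction T with
  | leaf => exact absurd h (Finset.notMem_empty b)
  | node b' ch ih =>
    rw [DT.rev, mem_insert] at h
    rcases h with h | h
    · exact Or.inl h
    · exact Or.inr ⟨_, ih _ h⟩

/-- the set of revealed blocks depends only on the contents of the revealed blocks -/
lemma rev_congr (blk : ι → Finset α) (T : DT ι (Finset α)) {ω ω' : Finset α}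
    (h : ∀ b ∈ T.rev blk ω, ω ∩ blk b = ω' ∩ blk b) : T.rev blk ω' = T.rev blk ω := by
  induction T with
  | leaf => rfl
  | node b' ch ih =>
    rw [DT.rev, DT.rev]
    have h1 : ω ∩ blk b' = ω' ∩ blk b' := h b' (by rw [DT.rev]; exact mem_insert_self _ _)
    rw [← h1]
    congr 1
    apply ih
    intro b hb
    exact h b (by rw [DT.rev]; exact mem_insert_of_mem hb)

/-- the union of the revealed blocks -/
def US (blk : ι → Finset α) (T : DT ι (Finset α)) (ω : Finset α) : Finset α :=
  (T.rev blk ω).biUnion blk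

lemma mx_inter_of_mem (blk : ι → Finset α) (T : DT ι (Finset α)) (ω ω' : Finset α) {b : ι}
    (hb : b ∈ T.rev blk ω) : ω ∩ blk b = mx (US blk T ω) ω ω' ∩ blk b := by
  ext e
  simp only [mem_inter, mem_mx]
  constructor
  · rintro ⟨h1, h2⟩
    exact ⟨Or.inl ⟨mem_biUnion.mpr ⟨b, hb, h2⟩, h1⟩, h2⟩
  · rintro ⟨h1 | h1, h2⟩
    · exact ⟨h1.2, h2⟩
    · exact absurd (mem_biUnion.mpr ⟨b, hb, h2⟩) h1.1

lemma rev_mx (blk : ι → Finset α) (T : DT ι (Finset α)) (ω ω' : Finset α) :
    T.rev blk (mx (US blk T ω) ω ω') = T.rev blk ω :=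
  rev_congr blk T fun _ hb => mx_inter_of_mem blk T ω ω' hb

lemma US_mx (blk : ι → Finset α) (T : DT ι (Finset α)) (ω ω' : Finset α) :
    US blk T (mx (US blk T ω) ω ω') = US blk T ω :=
  congrArg (fun R : Finset ι => R.biUnion blk) (rev_mx blk T ω ω')

/-- a tree which does not reveal `b` does not depend on the block `b` -/
lemma rev_sdiff (blk : ι → Finset α) (T : DT ι (Finset α)) {b : ι}
    (hd : ∀ b', T.Mem b' → Disjoint (blk b') (blk b)) (ω : Finset α) :
    T.rev blk ω = T.rev blk (ω \ blk b) := by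
  symm
  apply rev_congr
  intro b' hb'
  ext e
  simp only [mem_inter, mem_sdiff]
  have : e ∈ blk b' → e ∉ blk b := fun h =>
    Finset.disjoint_left.mp (hd b' (mem_of_rev blk T hb')) h
  tauto

lemma US_sdiff (blk : ι → Finset α) (T : DT ι (Finset α)) {b : ι}
    (hd : ∀ b', T.Mem b' → Disjoint (blk b') (blk b)) (ω : Finset α) :
    US blk T ω = US blk T (ω \ blk b) := by
  unfold US
  rw [rev_sdiff blk T hd]

lemma disjoint_US (blk : ι → Finset α) (T : DT ι (Finset α)) {b : ι}
    (hd : ∀ b', T.Mem b' → Disjoint (blk b') (blk b)) (ω : Finset α) :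
    Disjoint (US blk T ω) (blk b) := by
  unfold US
  rw [disjoint_biUnion_left]
  intro b' hb'
  exact hd b' (mem_of_rev blk T hb')

lemma mx_sdiff (blk : ι → Finset α) (T : DT ι (Finset α)) {b : ι}
    (hd : ∀ b', T.Mem b' → Disjoint (blk b') (blk b)) (ω ω' : Finset α) :
    mx (US blk T ω) ω ω' = mx (US blk T (ω \ blk b)) (ω \ blk b) ω' := by
  rw [← US_sdiff blk T hd]
  ext e
  simp only [mem_mx, mem_sdiff]
  have : e ∈ US blk T ω → e ∉ blk b := fun h => Finset.disjoint_left.mp (disjoint_US blk T hd ω) h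
  tauto

/-- If `η` and `η'` differ only on `Q`, then an increasing event can distinguish them only if `Q` is
pivotal. -/
lemma abs_le_piv {A : Finset α → Prop} [DecidablePred A] (hA : Inc A) (Q : Finset α)
    [DecidablePred (PivB A Q)] {η η' : Finset α}
    (h : η \ Q = η' \ Q) :
    |(if A η then (1 : ℝ) else 0) - (if A η' then 1 else 0)| ≤ if PivB A Q η' then 1 else 0 := by
  have h1 : η ⊆ η' ∪ Q := by
    intro e he
    rw [mem_union]
    by_cases h2 : e ∈ Q
    · exact Or.inr h2
    · have : e ∈ η \ Q := mem_sdiff.mpr ⟨he, h2⟩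
      rw [h] at this
      exact Or.inl (mem_sdiff.mp this).1
  have h2 : η' \ Q ⊆ η := by
    rw [← h]
    exact sdiff_subset
  by_cases hp : PivB A Q η'
  · rw [if_pos hp]
    split_ifs <;> norm_num
  · rw [if_neg hp]
    have h3 : A η ↔ A η' := by
      by_cases h4 : A (η' ∪ Q)
      · have h5 : A (η' \ Q) := by
          by_contra h6
          exact hp ⟨h4, h6⟩
        exact ⟨fun _ => hA _ _ sdiff_subset h5, fun _ => hA _ _ h2 h5⟩
      · exact ⟨fun h6 => absurd (hA _ _ h1 h6) h4, fun h6 => absurd (hA _ _ subset_union_left h6) h4⟩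
    by_cases h4 : A η
    · rw [if_pos h4, if_pos (h3.mp h4)]
      norm_num
    · rw [if_neg h4, if_neg (fun h5 => h4 (h3.mpr h5))]
      norm_num

open Classical in
/-- the main estimate -/
lemma main {q : α → ℝ} (hq : Wt q) (E : Finset α) (I : Finset ι) (blk : ι → Finset α)
    (hsub : ∀ b ∈ I, blk b ⊆ E) (hd : ∀ b ∈ I, ∀ b' ∈ I, b ≠ b' → Disjoint (blk b) (blk b'))
    {A : Finset α → Prop} (hA : Inc A) (T : DT ι (Finset α)) (hs : T.Simple)
    (hI : ∀ b, T.Mem b → b ∈ I) :
    ex q E (fun ω => ex q E (fun ω' => |(if A (mx (US blk T ω) ω ω') then (1 : ℝ) else 0) -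
      (if A ω' then 1 else 0)|)) ≤
    ∑ b ∈ I, ex q E (fun ω => if b ∈ T.rev blk ω then 1 else 0) *
      ex q E (fun ω => if PivB A (blk b) ω then 1 else 0) := by
  induction T with
  | leaf =>
    have h1 : ex q E (fun ω => ex q E (fun ω' =>
        |(if A (mx (US blk DT.leaf ω) ω ω') then (1 : ℝ) else 0) - (if A ω' then 1 else 0)|)) = 0 := by
      refine Eq.trans (ex_congr fun ω _ => ?_) (ex_zero q E)
      refine Eq.trans (ex_congr fun ω' _ => ?_) (ex_zero q E)
      have : mx (US blk DT.leaf ω) ω ω' = ω' := by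
        ext e
        rw [mem_mx]
        unfold US
        rw [DT.rev, biUnion_empty]
        simp
      show |(if A (mx (US blk DT.leaf ω) ω ω') then (1 : ℝ) else 0) - (if A ω' then 1 else 0)| = 0
      rw [this, sub_self, abs_zero]
    rw [h1]
    apply sum_nonneg
    intro b _
    apply mul_nonneg
    · apply ex_nonneg hq
      intro ω _
      split_ifs <;> norm_num
    · apply ex_nonneg hq
      intro ω _
      split_ifs <;> norm_num
  | node b ch ih =>
    have hbI : b ∈ I := hI b (Or.inl rfl)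
    have hchI : ∀ x b', (ch x).Mem b' → b' ∈ I := fun x b' hb' => hI b' (Or.inr ⟨x, hb'⟩)
    have hdb : ∀ x b', (ch x).Mem b' → Disjoint (blk b') (blk b) := by
      intro x b' hb'
      apply hd b' (hchI x b' hb') b hbI
      rintro rfl
      exact (hs x).1 hb'
    have hnot : ∀ x ω, b ∉ (ch x).rev blk ω := fun x ω h => (hs x).1 (mem_of_rev blk _ h)
    -- the function `F x ω`
    let F : Finset α → Finset α → ℝ := fun x ω => ex q E (fun ω' =>
      (if PivB A (blk b) (mx (US blk (ch x) ω) ω ω') then (1 : ℝ) else 0) +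
        |(if A (mx (US blk (ch x) ω) ω ω') then (1 : ℝ) else 0) - (if A ω' then 1 else 0)|)
    have hF : ∀ x ω, F x ω = F x (ω \ blk b) := by
      intro x ω
      show ex q E _ = ex q E _
      apply ex_congr
      intro ω' _
      rw [mx_sdiff blk (ch x) (hdb x)]
    have h1 : ex q E (fun ω => ex q E (fun ω' =>
        |(if A (mx (US blk (DT.node b ch) ω) ω ω') then (1 : ℝ) else 0) -
          (if A ω' then 1 else 0)|)) ≤ ex q E (fun ω => F (ω ∩ blk b) ω) := by
      apply ex_mono hq
      intro ω _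
      apply ex_mono hq
      intro ω' _
      have h2 : mx (US blk (DT.node b ch) ω) ω ω' \ blk b =
          mx (US blk (ch (ω ∩ blk b)) ω) ω ω' \ blk b := by
        have h3 : US blk (DT.node b ch) ω = blk b ∪ US blk (ch (ω ∩ blk b)) ω := by
          unfold US
          rw [DT.rev, biUnion_insert]
        rw [h3]
        ext e
        simp only [mem_sdiff, mem_mx, mem_union]
        tauto
      have h3 := abs_le_piv hA (blk b) h2
      have h4 := abs_sub_le (if A (mx (US blk (DT.node b ch) ω) ω ω') then (1 : ℝ) else 0)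
        (if A (mx (US blk (ch (ω ∩ blk b)) ω) ω ω') then (1 : ℝ) else 0) (if A ω' then 1 else 0)
      exact h4.trans (add_le_add_left h3 _)
    have h2 : ex q E (fun ω => F (ω ∩ blk b) ω) = ex q (blk b) (fun x => ex q E (F x)) :=
      ex_cond q (hsub b hbI) F hF
    have h3 : ∀ x, ex q E (F x) ≤ ex q E (fun ω => if PivB A (blk b) ω then (1 : ℝ) else 0) +
        ∑ b' ∈ I, ex q E (fun ω => if b' ∈ (ch x).rev blk ω then 1 else 0) *
          ex q E (fun ω => if PivB A (blk b') ω then 1 else 0) := by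
      intro x
      have h4 : ex q E (F x) = ex q E (fun ω => ex q E (fun ω' =>
          (if PivB A (blk b) (mx (US blk (ch x) ω) ω ω') then (1 : ℝ) else 0))) +
          ex q E (fun ω => ex q E (fun ω' =>
            |(if A (mx (US blk (ch x) ω) ω ω') then (1 : ℝ) else 0) - (if A ω' then 1 else 0)|)) := by
        rw [← ex_add]
        apply ex_congr
        intro ω _
        rw [← ex_add]
      rw [h4, ex_mx q E (US blk (ch x)) (fun ω ω' _ _ => US_mx blk (ch x) ω ω')
        (fun η => if PivB A (blk b) η then (1 : ℝ) else 0)]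
      exact add_le_add_right (ih x (hs x).2 (hchI x)) _
    refine h1.trans ?_
    rw [h2]
    refine (ex_mono hq fun x _ => h3 x).trans (le_of_eq ?_)
    rw [ex_add, ex_const, ex_sum]
    have h5 : ∀ b' ∈ I, ex q (blk b) (fun x => ex q E (fun ω => if b' ∈ (ch x).rev blk ω then 1 else 0) *
          ex q E (fun ω => if PivB A (blk b') ω then 1 else 0)) =
        ex q E (fun ω => if b' ∈ (ch (ω ∩ blk b)).rev blk ω then 1 else 0) *
          ex q E (fun ω => if PivB A (blk b') ω then 1 else 0) := by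
      intro b' _
      rw [ex_mul_right]
      congr 1
      symm
      exact ex_cond q (hsub b hbI) (fun x ω => if b' ∈ (ch x).rev blk ω then 1 else 0)
        (fun x ω => by
          show (if b' ∈ (ch x).rev blk ω then (1 : ℝ) else 0) = if b' ∈ (ch x).rev blk (ω \ blk b) then 1 else 0
          rw [rev_sdiff blk (ch x) (hdb x)])
    rw [sum_congr rfl h5]
    have h6 : ∀ b' ∈ I, ex q E (fun ω => if b' ∈ (DT.node b ch).rev blk ω then (1 : ℝ) else 0) *
          ex q E (fun ω => if PivB A (blk b') ω then 1 else 0) =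
        (if b' = b then ex q E (fun ω => if PivB A (blk b') ω then (1 : ℝ) else 0) else 0) +
        ex q E (fun ω => if b' ∈ (ch (ω ∩ blk b)).rev blk ω then 1 else 0) *
          ex q E (fun ω => if PivB A (blk b') ω then 1 else 0) := by
      intro b' _
      by_cases hb : b' = b
      · subst hb
        rw [if_pos rfl]
        have h7 : ex q E (fun ω => if b' ∈ (DT.node b' ch).rev blk ω then (1 : ℝ) else 0) = 1 := by
          refine Eq.trans (ex_congr fun ω _ => ?_) (ex_one q E)
          rw [if_pos (by rw [DT.rev]; exact mem_insert_self _ _)]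
        have h8 : ex q E (fun ω => if b' ∈ (ch (ω ∩ blk b')).rev blk ω then (1 : ℝ) else 0) = 0 := by
          refine Eq.trans (ex_congr fun ω _ => ?_) (ex_zero q E)
          rw [if_neg (hnot _ _)]
        rw [h7, h8]
        ring
      · rw [if_neg hb, zero_add]
        congr 1
        apply ex_congr
        intro ω _
        have : b' ∈ (DT.node b ch).rev blk ω ↔ b' ∈ (ch (ω ∩ blk b)).rev blk ω := by
          rw [DT.rev, mem_insert]
          tauto
        simp only [this]
    rw [sum_congr rfl h6, sum_add_distrib, Finset.sum_ite_eq' I b, if_pos hbI]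

end Osss84

open Osss84 in
/-- OSSS. -/
theorem osss {q : α → ℝ} (hq : Wt q) (E : Finset α) (I : Finset ι) (blk : ι → Finset α)
    (hsub : ∀ b ∈ I, blk b ⊆ E) (hd : ∀ b ∈ I, ∀ b' ∈ I, b ≠ b' → Disjoint (blk b) (blk b'))
    (T : DT ι (Finset α)) (hs : T.Simple) (hI : ∀ b, T.Mem b → b ∈ I)
    {A : Finset α → Prop} (hA : Inc A)
    (hT : ∀ ω ω', ω ⊆ E → ω' ⊆ E → (∀ b ∈ T.rev blk ω, ω ∩ blk b = ω' ∩ blk b) → (A ω ↔ A ω')) :
    2 * PQ q E A * (1 - PQ q E A) ≤
      ∑ b ∈ I, PQ q E (fun ω => b ∈ T.rev blk ω) * PQ q E (PivB A (blk b)) := by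
  classical
  have h1 := main hq E I blk hsub hd hA T hs hI
  have h2 : ex q E (fun ω => ex q E (fun ω' => |(if A (mx (US blk T ω) ω ω') then (1 : ℝ) else 0) -
      (if A ω' then 1 else 0)|)) = 2 * PQ q E A * (1 - PQ q E A) := by
    have h3 : ex q E (fun ω => ex q E (fun ω' => |(if A (mx (US blk T ω) ω ω') then (1 : ℝ) else 0) -
        (if A ω' then 1 else 0)|)) = ex q E (fun ω => ex q E (fun ω' =>
          (if A ω then (1 : ℝ) else 0) + (1 - 2 * (if A ω then (1 : ℝ) else 0)) *
            (if A ω' then 1 else 0))) := by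
      apply ex_congr
      intro ω hω
      apply ex_congr
      intro ω' hω'
      have h4 : A ω ↔ A (mx (US blk T ω) ω ω') :=
        hT ω _ hω (mx_subset hω hω') fun b hb => mx_inter_of_mem blk T ω ω' hb
      simp only [← h4]
      split_ifs <;> norm_num
    rw [h3]
    have h5 : ∀ ω, ω ⊆ E → ex q E (fun ω' =>
          (if A ω then (1 : ℝ) else 0) + (1 - 2 * (if A ω then (1 : ℝ) else 0)) *
            (if A ω' then 1 else 0)) = PQ q E A + (if A ω then (1 : ℝ) else 0) * (1 - 2 * PQ q E A) := by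
      intro ω _
      rw [ex_add, ex_const, ex_mul_left, ← PQ_eq_ex]
      ring
    rw [ex_congr h5, ex_add, ex_const, ex_mul_right, ← PQ_eq_ex]
    ring
  rw [h2] at h1
  refine h1.trans (le_of_eq ?_)
  refine sum_congr rfl fun b _ => ?_
  rw [PQ_eq_ex, PQ_eq_ex]

lemma Osss84.explore_aux (I : Finset ι) (blk : ι → Finset α)
    (nxt : Finset ι → Finset α → Option ι) (h : ∀ R κ b, nxt R κ = some b → b ∈ I ∧ b ∉ R)
    (n : ℕ) : ∀ (R : Finset ι) (κ : Finset α), (I \ R).card ≤ n →
    ∃ T : DT ι (Finset α), T.Simple ∧ (∀ b, T.Mem b → b ∈ I ∧ b ∉ R) ∧ ∀ ω : Finset α,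
      ω ∩ R.biUnion blk = κ →
      nxt (R ∪ T.rev blk ω) (ω ∩ (R ∪ T.rev blk ω).biUnion blk) = none ∧
      ∀ b ∈ T.rev blk ω, ∃ R' ⊆ R ∪ T.rev blk ω, b ∉ R' ∧ nxt R' (ω ∩ R'.biUnion blk) = some b := by
  induction n with
  | zero =>
    intro R κ hc
    refine ⟨DT.leaf, trivial, fun b hb => hb.elim, fun ω hω => ?_⟩
    have h1 : nxt R κ = none := by
      rcases hn : nxt R κ with _ | b
      · rfl
      · have h2 := h R κ b hn
        have : b ∈ I \ R := mem_sdiff.mpr h2
        rw [Nat.le_zero, card_eq_zero] at hc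
        rw [hc] at this
        exact absurd this (Finset.notMem_empty b)
    constructor
    · rw [DT.rev, union_empty, hω]
      exact h1
    · intro b hb
      rw [DT.rev] at hb
      exact absurd hb (Finset.notMem_empty b)
  | succ n ih =>
    intro R κ hc
    rcases hn : nxt R κ with _ | b
    · refine ⟨DT.leaf, trivial, fun b hb => hb.elim, fun ω hω => ⟨?_, ?_⟩⟩
      · rw [DT.rev, union_empty, hω]
        exact hn
      · intro b hb
        rw [DT.rev] at hb
        exact absurd hb (Finset.notMem_empty b)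
    · have hb := h R κ b hn
      have hc' : (I \ insert b R).card ≤ n := by
        have h1 : I \ insert b R ⊂ I \ R := by
          rw [Finset.ssubset_iff_of_subset (sdiff_subset_sdiff (subset_refl _) (subset_insert b R))]
          exact ⟨b, mem_sdiff.mpr hb, fun h2 => (mem_sdiff.mp h2).2 (mem_insert_self b R)⟩
        have := card_lt_card h1
        omega
      choose T hT1 hT2 hT3 using fun x : Finset α => ih (insert b R) (κ ∪ x) hc'
      refine ⟨DT.node b T, fun x => ⟨fun h2 => (hT2 x b h2).2 (mem_insert_self b R), hT1 x⟩, ?_, ?_⟩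
      · rintro b' (rfl | ⟨x, h2⟩)
        · exact hb
        · exact ⟨(hT2 x b' h2).1, fun h3 => (hT2 x b' h2).2 (mem_insert_of_mem h3)⟩
      · intro ω hω
        have h2 : ω ∩ (insert b R).biUnion blk = κ ∪ (ω ∩ blk b) := by
          rw [biUnion_insert, inter_union_distrib_left, hω, union_comm]
        have h3 := hT3 (ω ∩ blk b) ω h2
        have h4 : R ∪ (DT.node b T).rev blk ω = insert b R ∪ (T (ω ∩ blk b)).rev blk ω := by
          rw [DT.rev]
          ext e
          simp only [mem_union, mem_insert]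
          tauto
        rw [h4]
        refine ⟨h3.1, ?_⟩
        intro b' hb'
        rw [DT.rev, mem_insert] at hb'
        rcases hb' with rfl | hb'
        · refine ⟨R, ?_, hb.2, ?_⟩
          · intro e he
            exact mem_union_left _ (mem_insert_of_mem he)
          · rw [hω]
            exact hn
        · exact h3.2 b' hb'

/-- Exploration trees: `nxt R κ` is the next block to reveal when the blocks of `R` are revealed and `κ`
is their content; the exploration stops when `nxt = none`. -/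
theorem exists_explore (I : Finset ι) (blk : ι → Finset α)
    (nxt : Finset ι → Finset α → Option ι) (h : ∀ R κ b, nxt R κ = some b → b ∈ I ∧ b ∉ R) :
    ∃ T : DT ι (Finset α), T.Simple ∧ (∀ b, T.Mem b → b ∈ I) ∧ ∀ ω : Finset α,
      nxt (T.rev blk ω) (ω ∩ (T.rev blk ω).biUnion blk) = none ∧
      ∀ b ∈ T.rev blk ω, ∃ R ⊆ T.rev blk ω, b ∉ R ∧ nxt R (ω ∩ R.biUnion blk) = some b := by
  obtain ⟨T, h1, h2, h3⟩ := Osss84.explore_aux I blk nxt h (I \ ∅).card ∅ ∅ le_rfl
  refine ⟨T, h1, fun b hb => (h2 b hb).1, fun ω => ?_⟩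
  have := h3 ω (by simp)
  simpa only [empty_union] using this

end osss

end Pool.Agent.H69.NC
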