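import Mathlib
import Pool.Agent.H99.NC.Prob
import Pool.Agent.H99.NC.DualP

set_option autoImplicit false
open Finset

/-! RSW at a general homogeneous parameter (spec NC-B); `fp = fcP`. -/

namespace Pool.Agent.H69.NC

open Pool.Agent.H75.Perc Pool.Agent.H75.TwoArm
open Pool.Agent.H99.NC (fcP cp)

theorem fp_eq (p : ℝ) (w h : ℤ) : fp p w h = fcP p w h := by
  unfold fp
  rw [PQ_eq]
  rfl

lemma fp_glue {p : ℝ} (hp : 0 ≤ p ∧ p ≤ 1) {w1 w2 v h : ℤ} (hv : 0 ≤ v) (h1 : v ≤ w1)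
    (h2 : v ≤ w2) (hh : 0 ≤ h) :
    fp p w1 h * fp p w2 h * fp p h v ≤ fp p (w1 + w2 - v) h := by
  simp only [fp_eq]
  exact H99.NC.fcP_glue hp.1 hp.2 hv h1 h2

lemma fp_anti {p : ℝ} (hp : 0 ≤ p ∧ p ≤ 1) {w w' h : ℤ} (h0 : 0 ≤ w) (h1 : w ≤ w') :
    fp p w' h ≤ fp p w h := by
  simp only [fp_eq]
  exact H99.NC.fcP_anti hp.1 hp.2 h0 h1

lemma fp_mono {p : ℝ} (hp : 0 ≤ p ∧ p ≤ 1) {w h h' : ℤ} (h0 : 0 ≤ h) (h1 : h ≤ h') :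
    fp p w h ≤ fp p w h' := by
  simp only [fp_eq]
  exact H99.NC.fcP_mono hp.1 hp.2 h1

theorem fp_square {p : ℝ} (hp : 0 ≤ p ∧ p ≤ 1) (n : ℕ) : 1 ≤ fp p n n + fp (1 - p) n n := by
  simp only [fp_eq]
  have h1 := H99.NC.fcP_dual p n n
  have h2 := H99.NC.fcP_anti hp.1 hp.2 (w := n + 1) (w' := n) (h := n) (by omega) (by omega)
  have h3 := H99.NC.fcP_anti (p := 1 - p) (by linarith [hp.2]) (by linarith [hp.1])
    (w := n + 1) (w' := n) (h := n) (by omega) (by omega)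
  linarith

theorem fp_step {p : ℝ} (hp : 0 ≤ p ∧ p ≤ 1) {n m : ℕ} (hm : 1 ≤ m) :
    (fp p n n * (fp p (n + m) (2 * n) / 2)) ^ 2 * fp p n n ≤ fp p (n + 2 * m) (2 * n) := by
  simp only [fp_eq]
  exact H99.NC.fcP_step hp.1 hp.2 hm

theorem fp_step' {p : ℝ} (hp : 0 ≤ p ∧ p ≤ 1) {n m : ℕ} (hm : 1 ≤ m) :
    (fp p n n * (1 - Real.sqrt (1 - fp p (n + m) (2 * n)))) ^ 2 * fp p n n ≤
      fp p (n + 2 * m) (2 * n) := by
  simp only [fp_eq]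
  exact H99.NC.fcP_step' hp.1 hp.2 hm

end Pool.Agent.H69.NC
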