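import Mathlib

set_option autoImplicit false

/-! # NC-S : abstract form of the finite size input

All statements are about a function `f p w h` (crossing probability of a `w × h` rectangle at the
parameter `p`) which satisfies the gluing inequality, monotonicity, square duality, one step of RSW
and rectangle duality. -/

namespace Pool.Agent.H69.NC.SB

/-- the properties of crossing probabilities which are used -/
structure Cross (f : ℝ → ℤ → ℤ → ℝ) : Prop where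
  nonneg : ∀ p : ℝ, 0 ≤ p ∧ p ≤ 1 → ∀ w h : ℤ, 0 ≤ f p w h
  le_one : ∀ p : ℝ, 0 ≤ p ∧ p ≤ 1 → ∀ w h : ℤ, f p w h ≤ 1
  glue : ∀ p : ℝ, 0 ≤ p ∧ p ≤ 1 → ∀ w1 w2 v h : ℤ, 0 ≤ v → v ≤ w1 → v ≤ w2 → 0 ≤ h →
    f p w1 h * f p w2 h * f p h v ≤ f p (w1 + w2 - v) h
  anti : ∀ p : ℝ, 0 ≤ p ∧ p ≤ 1 → ∀ w w' h : ℤ, 0 ≤ w → w ≤ w' → f p w' h ≤ f p w h
  mono : ∀ p : ℝ, 0 ≤ p ∧ p ≤ 1 → ∀ w h h' : ℤ, 0 ≤ h → h ≤ h' → f p w h ≤ f p w h'
  square : ∀ p : ℝ, 0 ≤ p ∧ p ≤ 1 → ∀ n : ℕ, 1 ≤ f p n n + f (1 - p) n n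
  step : ∀ p : ℝ, 0 ≤ p ∧ p ≤ 1 → ∀ n m : ℕ, 1 ≤ m →
    (f p n n * (f p (n + m) (2 * n) / 2)) ^ 2 * f p n n ≤ f p (n + 2 * m) (2 * n)
  step' : ∀ p : ℝ, 0 ≤ p ∧ p ≤ 1 → ∀ n m : ℕ, 1 ≤ m →
    (f p n n * (1 - Real.sqrt (1 - f p (n + m) (2 * n)))) ^ 2 * f p n n ≤ f p (n + 2 * m) (2 * n)
  dual : ∀ p : ℝ, 0 ≤ p ∧ p ≤ 1 → ∀ w h : ℤ, 1 ≤ w → 0 ≤ h →
    f p w h + f (1 - p) (h + 1) (w - 1) = 1

variable {f : ℝ → ℤ → ℤ → ℝ}

/-- iterated gluing -/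
lemma iter (hf : Cross f) {p : ℝ} (hp : 0 ≤ p ∧ p ≤ 1) {W H : ℤ} (hH : 0 ≤ H) (hW : H ≤ W)
    (k : ℕ) : f p W H ^ (2 * k + 1) ≤ f p (W + k * (W - H)) H := by
  induction k with
  | zero => simp
  | succ k ih =>
    have h0 := hf.nonneg p hp W H
    have hHH : f p W H ≤ f p H H := hf.anti p hp H W H hH hW
    have hk : (0 : ℤ) ≤ (k : ℤ) * (W - H) := mul_nonneg (by positivity) (by linarith)
    have hg := hf.glue p hp (W + k * (W - H)) W H H hH (by linarith) hW hH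
    have e1 : W + (k : ℤ) * (W - H) + W - H = W + ((k + 1 : ℕ) : ℤ) * (W - H) := by
      push_cast; ring
    rw [e1] at hg
    refine le_trans ?_ hg
    have e2 : f p W H ^ (2 * (k + 1) + 1) = f p W H ^ (2 * k + 1) * f p W H * f p W H := by ring
    rw [e2]
    have h1 : f p W H ^ (2 * k + 1) * f p W H ≤ f p (W + k * (W - H)) H * f p W H :=
      mul_le_mul_of_nonneg_right ih h0
    exact mul_le_mul h1 hHH h0 (mul_nonneg (hf.nonneg p hp _ _) h0)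

/-- iterated gluing with a target width -/
lemma iter_le (hf : Cross f) {p : ℝ} (hp : 0 ≤ p ∧ p ≤ 1) {W H L : ℤ} (hH : 0 ≤ H) (hW : H ≤ W)
    (hL : 0 ≤ L) (k : ℕ) (hk : L ≤ W + k * (W - H)) : f p W H ^ (2 * k + 1) ≤ f p L H :=
  le_trans (iter hf hp hH hW k) (hf.anti p hp _ _ _ hL hk)

/-- Bernoulli -/
lemma bern {x : ℝ} (hx : x ≤ 1) (k : ℕ) : 1 - k * x ≤ (1 - x) ^ k := by
  have := one_add_mul_le_pow (a := -x) (by linarith) k
  have e : 1 + (k : ℝ) * -x = 1 - k * x := by ring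
  rw [e] at this
  simpa [sub_eq_add_neg] using this

/-- if a hard-way crossing has probability `≥ 1 - x` then so has the long one -/
lemma long_of (hf : Cross f) {p : ℝ} (hp : 0 ≤ p ∧ p ≤ 1) {W H L : ℤ} (hH : 0 ≤ H) (hW : H ≤ W)
    (hL : 0 ≤ L) (k : ℕ) (hk : L ≤ W + k * (W - H)) {x : ℝ} (hx1 : x ≤ 1)
    (hx : 1 - x ≤ f p W H) : 1 - ((2 * k + 1 : ℕ) : ℝ) * x ≤ f p L H := by
  refine le_trans (bern hx1 (2 * k + 1)) ?_
  refine le_trans ?_ (iter_le hf hp hH hW hL k hk)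
  exact pow_le_pow_left₀ (by linarith) hx _

/-- Step 1 : at the parameter `1 - p` the hard-way crossings of ratio 5:4 are unlikely. -/
lemma step_one (hf : Cross f) {p : ℝ} (hp : 0 ≤ p ∧ p ≤ 1) {n q : ℕ} (h1 : n ≤ 16 * q)
    (h2 : 4 * q ≤ n) : f p (5 * q) (4 * q) ^ 23 ≤ f p n n := by
  have a1 : f p (5 * q) (4 * q) ^ (2 * 11 + 1) ≤ f p n (4 * q) := by
    apply iter_le hf hp (by positivity) (by have : (0:ℤ) ≤ q := by positivity
                                            linarith) (by positivity) 11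
    have : (n : ℤ) ≤ 16 * q := by exact_mod_cast h1
    push_cast
    linarith
  refine le_trans a1 (hf.mono p hp _ _ _ (by positivity) ?_)
  exact_mod_cast h2

/-- Case B : one RSW step at `1 - p` and rectangle duality. -/
lemma case_B (hf : Cross f) {p : ℝ} (hp : 0 ≤ p ∧ p ≤ 1) {q : ℕ} (hq : 1 ≤ q) {d e z : ℝ}
    (hd : 0 < d) (he : 0 < e)
    (hz : f (1 - p) (5 * q) (4 * q) ≤ z) (hz2 : 4 * z ≤ d ^ 3 * (e / 27) ^ 2)
    (ha : d ≤ f (1 - p) ((2 * q : ℕ) : ℤ) ((2 * q : ℕ) : ℤ)) :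
    ∃ m : ℕ, 2 * m ≤ 7 * q ∧ 3 * q ≤ m ∧ 1 - e ≤ f p (3 * m) m := by
  have hp' : 0 ≤ 1 - p ∧ 1 - p ≤ 1 := ⟨by linarith [hp.2], by linarith [hp.1]⟩
  obtain ⟨m, hm1, hm2⟩ : ∃ m : ℕ, 3 * q ≤ 2 * m ∧ 2 * m ≤ 3 * q + 1 := ⟨(3 * q + 1) / 2, by omega, by omega⟩
  have hm : 1 ≤ m := by omega
  set x := f (1 - p) (((2 * q : ℕ) : ℤ) + m) (2 * ((2 * q : ℕ) : ℤ)) with hx
  have hx0 : 0 ≤ x := hf.nonneg _ hp' _ _
  have hx1 : x ≤ 1 := hf.le_one _ hp' _ _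
  have hs := hf.step (1 - p) hp' (2 * q) m hm
  rw [← hx] at hs
  have hy : f (1 - p) (((2 * q : ℕ) : ℤ) + 2 * m) (2 * ((2 * q : ℕ) : ℤ)) ≤ z := by
    refine le_trans ?_ hz
    have e1 : (2 * ((2 * q : ℕ) : ℤ)) = 4 * q := by push_cast; ring
    rw [e1]
    refine hf.anti _ hp' _ _ _ (by positivity) ?_
    have : (3 * q : ℤ) ≤ 2 * m := by exact_mod_cast hm1
    push_cast
    linarith
  set a := f (1 - p) ((2 * q : ℕ) : ℤ) ((2 * q : ℕ) : ℤ) with haa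
  have hxs : x ^ 2 * d ^ 3 ≤ 4 * z := by
    have h1 : d ^ 3 * (x / 2) ^ 2 ≤ a ^ 3 * (x / 2) ^ 2 :=
      mul_le_mul_of_nonneg_right (pow_le_pow_left₀ hd.le ha 3) (by positivity)
    have h2 : (a * (x / 2)) ^ 2 * a = a ^ 3 * (x / 2) ^ 2 := by ring
    nlinarith [h1, h2, hs, hy]
  have hxe : x ≤ e / 27 := by
    by_contra hcon
    push Not at hcon
    have h3 : (e / 27) ^ 2 < x ^ 2 := pow_lt_pow_left₀ hcon (by positivity) (by norm_num)
    have hd3 : 0 < d ^ 3 := by positivity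
    nlinarith [mul_lt_mul_of_pos_left h3 hd3]
  have hdual := hf.dual p hp (2 * ((2 * q : ℕ) : ℤ) + 1) (((2 * q : ℕ) : ℤ) + m - 1)
    (by have : (0 : ℤ) ≤ ((2 * q : ℕ) : ℤ) := by positivity
        linarith)
    (by push_cast
        have : (1 : ℤ) ≤ q := by exact_mod_cast hq
        have : (1 : ℤ) ≤ m := by exact_mod_cast hm
        linarith)
  have e2 : (((2 * q : ℕ) : ℤ) + m - 1 + 1) = ((2 * q : ℕ) : ℤ) + m := by ring
  have e3 : (2 * ((2 * q : ℕ) : ℤ) + 1 - 1) = 2 * ((2 * q : ℕ) : ℤ) := by ring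
  rw [e2, e3, ← hx] at hdual
  have hm3 : (3 * q : ℤ) ≤ 2 * m := by exact_mod_cast hm1
  have hm4 : (2 * m : ℤ) ≤ 3 * q + 1 := by exact_mod_cast hm2
  have hq1 : (1 : ℤ) ≤ q := by exact_mod_cast hq
  have hlong := long_of hf hp (W := 2 * ((2 * q : ℕ) : ℤ) + 1) (H := ((2 * q : ℕ) : ℤ) + m - 1)
    (L := 3 * (((2 * q : ℕ) : ℤ) + m - 1)) (by push_cast; linarith) (by push_cast; linarith)
    (by push_cast; linarith) 13 (by push_cast; linarith) hx1 (by linarith)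
  refine ⟨2 * q + m - 1, by omega, by omega, ?_⟩
  have e4 : ((2 * q + m - 1 : ℕ) : ℤ) = ((2 * q : ℕ) : ℤ) + m - 1 := by
    rw [Nat.cast_sub (by omega)]; push_cast; ring
  rw [e4]
  refine le_trans ?_ hlong
  push_cast
  linarith

/-- Case A : both squares are crossed with probability close to one. -/
lemma case_A (hf : Cross f) {p : ℝ} (hp : 0 ≤ p ∧ p ≤ 1) {m : ℕ} (hm : 1 ≤ m) {e : ℝ}
    (he : 0 < e) (he1 : e ≤ 1)
    (h1 : f (1 - p) m m ≤ (e / 35) ^ 2)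
    (h2 : f (1 - p) ((2 * m : ℕ) : ℤ) ((2 * m : ℕ) : ℤ) ≤ (e / 35) ^ 2) :
    1 - e ≤ f p (3 * ((2 * m : ℕ) : ℤ)) ((2 * m : ℕ) : ℤ) := by
  set s := e / 35 with hs
  have hs0 : 0 < s := by positivity
  have hs1 : s ≤ 1 / 35 := by rw [hs]; linarith
  have b1 : 1 - s ^ 2 ≤ f p m m := by have := hf.square p hp m; linarith
  have b2 : 1 - s ^ 2 ≤ f p ((2 * m : ℕ) : ℤ) ((2 * m : ℕ) : ℤ) := by
    have := hf.square p hp (2 * m); linarith
  have hst := hf.step' p hp m m hm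
  have e0 : ((m : ℤ) + m) = ((2 * m : ℕ) : ℤ) := by push_cast; ring
  have e1 : (2 * (m : ℤ)) = ((2 * m : ℕ) : ℤ) := by push_cast; ring
  rw [e0, e1] at hst
  set B := f p ((2 * m : ℕ) : ℤ) ((2 * m : ℕ) : ℤ) with hB
  set b := f p (m : ℤ) (m : ℤ) with hb
  have hB1 : B ≤ 1 := hf.le_one p hp _ _
  have hb1 : b ≤ 1 := hf.le_one p hp _ _
  have hr : Real.sqrt (1 - B) ≤ s := by
    rw [show s = Real.sqrt (s ^ 2) by rw [Real.sqrt_sq hs0.le]]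
    exact Real.sqrt_le_sqrt (by linarith)
  have hss : s ^ 2 ≤ s / 35 := by nlinarith
  have hb0 : 0 ≤ b := hf.nonneg p hp _ _
  have hr0 : 0 ≤ Real.sqrt (1 - B) := Real.sqrt_nonneg _
  -- lower bound for the crossing of ratio 3:2
  have h32 : 1 - 5 * s ≤ f p ((m : ℤ) + 2 * m) ((2 * m : ℕ) : ℤ) := by
    have e5 : (m : ℤ) + ((2 * m : ℕ) : ℤ) = (m : ℤ) + 2 * m := by push_cast; ring
    have hlow : (1 - s ^ 2) * (1 - s) ≤ b * (1 - Real.sqrt (1 - B)) := by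
      apply mul_le_mul b1 (by linarith) (by linarith) hb0
    have h0 : 0 ≤ (1 - s ^ 2) * (1 - s) := mul_nonneg (by nlinarith) (by linarith)
    have h3 : ((1 - s ^ 2) * (1 - s)) ^ 2 * (1 - s ^ 2) ≤ (b * (1 - Real.sqrt (1 - B))) ^ 2 * b :=
      mul_le_mul (pow_le_pow_left₀ h0 hlow 2) b1 (by nlinarith) (sq_nonneg _)
    have h4 : 1 - 5 * s ≤ ((1 - s ^ 2) * (1 - s)) ^ 2 * (1 - s ^ 2) := by
      have k1 : 1 - 3 * s ^ 2 ≤ (1 - s ^ 2) ^ 3 := by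
        have := bern (x := s ^ 2) (by nlinarith) 3
        push_cast at this; linarith
      have k2 : 1 - 2 * s ≤ (1 - s) ^ 2 := by nlinarith [sq_nonneg s]
      have k3 : ((1 - s ^ 2) * (1 - s)) ^ 2 * (1 - s ^ 2) = (1 - s ^ 2) ^ 3 * (1 - s) ^ 2 := by ring
      rw [k3]
      have k4 : (1 - 3 * s ^ 2) * (1 - 2 * s) ≤ (1 - s ^ 2) ^ 3 * (1 - s) ^ 2 :=
        mul_le_mul k1 k2 (by linarith) (pow_nonneg (by nlinarith) 3)
      nlinarith [k4, hss, hs0, hs1]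
    rw [e1] at *
    exact le_trans h4 (le_trans h3 (by simpa [e5] using hst))
  have hm1 : (1 : ℤ) ≤ m := by exact_mod_cast hm
  have hlong := long_of hf hp (W := (m : ℤ) + 2 * m) (H := ((2 * m : ℕ) : ℤ))
    (L := 3 * ((2 * m : ℕ) : ℤ)) (by positivity) (by push_cast; linarith)
    (by positivity) 3 (by push_cast; linarith) (x := 5 * s) (by linarith) h32
  refine le_trans ?_ hlong
  have : e = 35 * s := by rw [hs]; ring
  push_cast
  linarith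

/-- abstract form of `small_big` -/
theorem small_big_abs (hf : Cross f) (ε : ℝ) (hε : 0 < ε) : ∃ δ : ℝ, 0 < δ ∧
    ∀ (p : ℝ), 0 ≤ p → p ≤ 1 → ∀ n : ℕ, 64 ≤ n → f (1 - p) n n < δ →
    ∃ m : ℕ, n ≤ 64 * m ∧ m ≤ n ∧ 1 - ε ≤ f p (3 * m) m := by
  set e := min ε 1 with he
  have he0 : 0 < e := lt_min hε one_pos
  have he1 : e ≤ 1 := min_le_right _ _
  have heε : e ≤ ε := min_le_left _ _
  set d := (e / 35) ^ 2 with hd
  have hd0 : 0 < d := by positivity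
  set z := d ^ 3 * (e / 27) ^ 2 / 4 with hz
  have hz0 : 0 < z := by positivity
  refine ⟨z ^ 23, by positivity, ?_⟩
  intro p hp0 hp1 n hn hlt
  have hp : 0 ≤ p ∧ p ≤ 1 := ⟨hp0, hp1⟩
  have hp' : 0 ≤ 1 - p ∧ 1 - p ≤ 1 := ⟨by linarith, by linarith⟩
  obtain ⟨q, hq1, hq2⟩ : ∃ q : ℕ, n ≤ 16 * q ∧ 16 * q ≤ n + 15 := ⟨(n + 15) / 16, by omega, by omega⟩
  have key : ∀ r : ℕ, n ≤ 16 * r → 4 * r ≤ n → f (1 - p) (5 * r) (4 * r) ≤ z := by
    intro r h1 h2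
    have h3 := step_one hf hp' h1 h2
    by_contra hcon
    push Not at hcon
    have h4 : z ^ 23 ≤ f (1 - p) (5 * r) (4 * r) ^ 23 := pow_le_pow_left₀ hz0.le hcon.le _
    linarith
  have hzz : 4 * z ≤ d ^ 3 * (e / 27) ^ 2 := by rw [hz]; linarith
  by_cases c1 : f (1 - p) ((2 * q : ℕ) : ℤ) ((2 * q : ℕ) : ℤ) ≤ d
  · by_cases c2 : f (1 - p) ((2 * (2 * q) : ℕ) : ℤ) ((2 * (2 * q) : ℕ) : ℤ) ≤ d
    · -- case A
      have := case_A hf hp (m := 2 * q) (by omega) he0 he1 c1 c2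
      exact ⟨2 * (2 * q), by omega, by omega, by linarith⟩
    · push Not at c2
      obtain ⟨m, hm1, hm2, hm3⟩ := case_B hf hp (q := 2 * q) (by omega) hd0 he0
        (by have := key (2 * q) (by omega) (by omega); exact this) hzz c2.le
      exact ⟨m, by omega, by omega, by linarith⟩
  · push Not at c1
    obtain ⟨m, hm1, hm2, hm3⟩ := case_B hf hp (q := q) (by omega) hd0 he0
      (key q (by omega) (by omega)) hzz c1.le
    exact ⟨m, by omega, by omega, by linarith⟩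

end Pool.Agent.H69.NC.SB
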