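import Mathlib
import Pool.Agent.H69.NC.SmallBigAbs
import Pool.Agent.H69.NC.RswP
import Pool.Agent.H69.NC.RectDual

set_option autoImplicit false

/-! # NC-S : finite size criterion input -/

namespace Pool.Agent.H69.NC

/-- If the dual square crossing probability at scale `n` is tiny then at a comparable scale the open
long crossing has probability close to one. -/
theorem small_big (ε : ℝ) (hε : 0 < ε) : ∃ δ : ℝ, 0 < δ ∧ ∀ (p : ℝ), 1 / 2 ≤ p → p ≤ 1 →
    ∀ n : ℕ, 64 ≤ n → fp (1 - p) n n < δ → ∃ m : ℕ, n ≤ 64 * m ∧ m ≤ n ∧ 1 - ε ≤ fp p (3 * m) m := by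
  have hw : ∀ p : ℝ, 0 ≤ p ∧ p ≤ 1 → Wt (hom p : ℤ × ℤ → ℝ) := fun p hp e => hp
  have hf : SB.Cross fp :=
    { nonneg := fun p hp w h => PQ_nonneg (hw p hp) _ _
      le_one := fun p hp w h => PQ_le_one (hw p hp) _ _
      glue := fun p hp w1 w2 v h hv h1 h2 hh => fp_glue hp hv h1 h2 hh
      anti := fun p hp w w' h h0 h1 => fp_anti hp h0 h1
      mono := fun p hp w h h' h0 h1 => fp_mono hp h0 h1
      square := fun p hp n => fp_square hp n
      step := fun p hp n m hm => fp_step hp hm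
      step' := fun p hp n m hm => fp_step' hp hm
      dual := fun p hp w h hw hh => fp_dual hp hw hh }
  obtain ⟨δ, h1, h2⟩ := SB.small_big_abs hf ε hε
  exact ⟨δ, h1, fun p hp1 hp2 n hn hlt => h2 p (by linarith) hp2 n hn hlt⟩

end Pool.Agent.H69.NC
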